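import Mathlib
import Pool.Agent.H204R3.GP.Defs

/-!
# A point of the moduli space of abelian varieties and the subvarieties through it

`x` is a point of `𝒜_g`, `A = A_x` the abelian variety, `V = V_ℓ(A)` its rational Tate module, `Γ`
the Galois group of a finitely generated field over which `x` is defined, `ρ` the action of `Γ` on
`V`, `χ` the cyclotomic character, `ω` the Weil pairing. `H^w(A^n, ℚ_ℓ)` is the space of the
alternating forms on `V ^ n` in `w` variables, and `IsTateClass ρ χ j f` says that the class `f` in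
`H^{2j}(A^n, ℚ_ℓ)(j)` is fixed by a subgroup of finite index.

A closed irreducible subvariety `Y` through `x` is given by the action `ρ'` of a group `G` (the
fundamental group of the normalisation of `Y`, whose image in `GL(V)` is that of the Galois group of
the field of functions of `Y`) on the same space `V`.
-/

namespace Pool.Agent.K1H13.X

open Pool.Agent.H204R3.GP

variable {k V Γ G : Type} [Field k] [AddCommGroup V] [Module k V] [Group Γ] [Group G]

/-- The Galois action at the point `x`: the Weil pairing is nondegenerate and `χ`-equivariant, and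
the action is semisimple over the finite extensions (a theorem of Faltings). -/
structure IsPoint (ρ : Representation k Γ V) (χ : Γ →* k) (ω : V →ₗ[k] V →ₗ[k] k) : Prop where
  nondeg : ∀ u, (∀ v, ω u v = 0) → u = 0
  pairing : ∀ s u v, ω (ρ s u) (ρ s v) = χ s * ω u v
  semisimple : FiniteIndexSemisimple ρ

/-- The action `ρ'` comes from a subvariety `Y` through `x`: up to finite index, the image of the
Galois group of `x` is contained in the image of the group of `Y`. -/
structure PassesThrough (ρ : Representation k Γ V) (χ : Γ →* k) (ω : V →ₗ[k] V →ₗ[k] k)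
    (ρ' : Representation k G V) (χ' : G →* k) : Prop where
  contains : ∃ Δ : Subgroup Γ, Δ.FiniteIndex ∧ ∀ s ∈ Δ, ∃ t : G, ρ' t = ρ s ∧ χ' t = χ s
  pairing : ∀ t u v, ω (ρ' t u) (ρ' t v) = χ' t * ω u v

/-- `G_{ℓ,Y} = G_{ℓ,x}`: the two actions have the same Tate classes, in all degrees on all
powers `A ^ n`. -/
def SameGroup (ρ : Representation k Γ V) (χ : Γ →* k) (ρ' : Representation k G V)
    (χ' : G →* k) : Prop :=
  ∀ (n j : ℕ) (f : (Fin n → V) [⋀^Fin j × Fin 2]→ₗ[k] k),
    IsTateClass ρ' χ' j f ↔ IsTateClass ρ χ j f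

/-- `P` commutes with a subgroup of finite index: it is an element of `End(A) ⊗ ℚ_ℓ`, where `End(A)`
are the endomorphisms over an algebraic closure (a theorem of Faltings). -/
def IsEndo (ρ : Representation k Γ V) (P : Module.End k V) : Prop :=
  ∃ Δ : Subgroup Γ, Δ.FiniteIndex ∧ ∀ s ∈ Δ, ∀ v, P (ρ s v) = ρ s (P v)

/-- The endomorphisms of `A_x` extend to the generic abelian variety over `Y`. -/
def SameEndo (ρ : Representation k Γ V) (ρ' : Representation k G V) : Prop :=
  ∀ P, IsEndo ρ P → IsEndo ρ' P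

/-- `P` is in the centre of `End(A) ⊗ ℚ_ℓ`. -/
def IsCentral (ρ : Representation k Γ V) (P : Module.End k V) : Prop :=
  IsEndo ρ P ∧ ∀ Q, IsEndo ρ Q → Q * P = P * Q

/-- `X`, as an element of a Lie algebra, kills all Tate classes on all powers of `A`: it is in the
Lie algebra of the subgroup of the symplectic group which fixes the Tate classes. -/
def InLie (ρ : Representation k Γ V) (χ : Γ →* k) (X : Module.End k V) : Prop :=
  ∀ (n j : ℕ) (f : (Fin n → V) [⋀^Fin j × Fin 2]→ₗ[k] k), IsTateClass ρ χ j f →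
    ∀ v, ∑ l, f (Function.update v l fun i => X (v l i)) = 0

/-- The centre of `End(A) ⊗ ℚ_ℓ` meets the two Lie algebras in the same space: `G_{ℓ,Y}` and
`G_{ℓ,x}` have the same central torus. -/
def SameCentre (ρ : Representation k Γ V) (χ : Γ →* k) (ρ' : Representation k G V)
    (χ' : G →* k) : Prop :=
  ∀ X, IsCentral ρ X → InLie ρ' χ' X → InLie ρ χ X

/-- `G_{ℓ,x}` is normal in `G_{ℓ,Y}`: the Lie algebra of the point is an ideal in that of `Y`. -/
def IsNormalIn (ρ : Representation k Γ V) (χ : Γ →* k) (ρ' : Representation k G V)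
    (χ' : G →* k) : Prop :=
  ∀ X Z, InLie ρ' χ' X → InLie ρ χ Z → InLie ρ χ (X * Z - Z * X)

/-- The Lie algebra of `Y` is the sum of that of the point and of endomorphisms of `A_x`. -/
def IsAlmostProduct (ρ : Representation k Γ V) (χ : Γ →* k) (ρ' : Representation k G V)
    (χ' : G →* k) : Prop :=
  ∀ X, InLie ρ' χ' X → ∃ Z, InLie ρ χ Z ∧ IsEndo ρ (X - Z)

/-- The Lie algebra has no ideals except zero and itself. -/
def HasNoIdeals (ρ : Representation k Γ V) (χ : Γ →* k) : Prop :=
  ∀ 𝔞 : Submodule k (Module.End k V), (∀ Z ∈ 𝔞, InLie ρ χ Z) →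
    (∀ X, InLie ρ χ X → ∀ Z ∈ 𝔞, X * Z - Z * X ∈ 𝔞) → 𝔞 = ⊥ ∨ ∀ X, InLie ρ χ X → X ∈ 𝔞

/-- A class of codimension two on `A ^ n` is *decomposable* if it is a linear combination of
products of two Tate classes of degree two. -/
def Decomposable (ρ : Representation k Γ V) (χ : Γ →* k) {n : ℕ}
    (f : (Fin n → V) [⋀^Fin 2 × Fin 2]→ₗ[k] k) : Prop :=
  f ∈ Submodule.span k {g : (Fin n → V) [⋀^Fin 2 × Fin 2]→ₗ[k] k |
    ∃ B : Fin 2 → (Fin n → V) [⋀^Fin 2]→ₗ[k] k, (∀ l, IsTateClass ρ χ 1 (B l)) ∧ IsWedge B g}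

end Pool.Agent.K1H13.X
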