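import Mathlib

/-!
# Powers of unipotent operators on multilinear forms
-/

set_option linter.unusedSectionVars false

namespace Pool.Agent.K1H13.X

open Module Finset Function Polynomial

variable {K : Type} [Field K] [CharZero K]

theorem eq_of_nat {P Q : K[X]} (h : ∀ t : ℕ, P.eval (t : K) = Q.eval (t : K)) : P = Q := by
  apply eq_of_infinite_eval_eq
  refine Set.infinite_of_injective_forall_mem (f := fun t : ℕ => (t : K)) Nat.cast_injective ?_
  exact h

/-- A polynomial sequence which is geometric is constant. -/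
theorem geom_const {Q : K[X]} {μ a : K} (h : ∀ t : ℕ, Q.eval (t : K) = μ ^ t * a) : Q = C a := by
  by_cases ha : a = 0
  · rw [ha, map_zero]
    refine eq_of_nat fun t => ?_
    rw [h, ha, mul_zero, eval_zero]
  have hQ0 : Q ≠ 0 := by
    rintro rfl
    have h1 := h 0
    rw [eval_zero, pow_zero, one_mul] at h1
    exact ha h1.symm
  have h1 : taylor 1 Q = C μ * Q := by
    refine eq_of_nat fun t => ?_
    rw [taylor_eval, eval_mul, eval_C, h t]
    have h2 := h (t + 1)
    push_cast at h2
    rw [h2, pow_succ]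
    ring
  have h2 : Q.leadingCoeff = μ * Q.leadingCoeff := by
    conv_lhs => rw [← leadingCoeff_taylor (r := (1 : K)), h1, leadingCoeff_mul, leadingCoeff_C]
  have h3 : μ = 1 := by
    have h4 : (μ - 1) * Q.leadingCoeff = 0 := by linear_combination -h2
    exact sub_eq_zero.1 ((mul_eq_zero.1 h4).resolve_right (leadingCoeff_ne_zero.2 hQ0))
  refine eq_of_nat fun t => ?_
  rw [h, h3, one_pow, one_mul, eval_C]

/-- The binomial polynomials. -/
noncomputable def bp (K : Type) [Field K] (i : ℕ) : K[X] :=
  C ((Nat.factorial i : K)⁻¹) * descPochhammer K i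

theorem bp_nat (i t : ℕ) : (bp K i).eval (t : K) = (t.choose i : K) := by
  rw [bp, eval_mul, eval_C, descPochhammer_eval_eq_descFactorial,
    Nat.descFactorial_eq_factorial_mul_choose]
  push_cast
  rw [inv_mul_cancel_left₀ (Nat.cast_ne_zero.2 (Nat.factorial_ne_zero i))]

variable {X : Type} [AddCommGroup X] [Module K X] {S : Type} [Fintype S] [DecidableEq S]

/-- Expansion of a multilinear form. -/
theorem expand (φ : MultilinearMap K (fun _ : S => X) K) {n : ℕ} (c : S → Fin n → K)
    (x : S → Fin n → X) : φ (fun l => ∑ i, c l i • x l i) =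
      ∑ I : S → Fin n, (∏ l, c l (I l)) * φ (fun l => x l (I l)) := by
  rw [MultilinearMap.map_sum]
  refine Finset.sum_congr rfl fun I _ => ?_
  rw [MultilinearMap.map_smul_univ, smul_eq_mul]

/-- The polynomial through the values on the powers of `1 + ν`. -/
noncomputable def pol (ν : End K X) (n : ℕ) (φ : MultilinearMap K (fun _ : S => X) K)
    (v : S → X) : K[X] :=
  ∑ I : S → Fin n, (∏ l, bp K (I l)) * C (φ (fun l => (ν ^ (I l : ℕ)) (v l)))

theorem pow_expand (ν : End K X) {n : ℕ} (hν : ν ^ n = 0) (t : ℕ) (x : X) :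
    ((1 + ν) ^ t) x = ∑ i : Fin n, ((t.choose i : ℕ) : K) • (ν ^ (i : ℕ)) x := by
  have h1 : (1 + ν) ^ t = ∑ i ∈ range (t + 1), ((t.choose i : ℕ) : K) • ν ^ i := by
    rw [add_comm, (Commute.one_right ν).add_pow]
    refine Finset.sum_congr rfl fun i _ => ?_
    rw [one_pow, mul_one, ← nsmul_eq_mul', Nat.cast_smul_eq_nsmul]
  have h2 : ∑ i ∈ range (t + 1), ((t.choose i : ℕ) : K) • ν ^ i =
      ∑ i ∈ range (max (t + 1) n), ((t.choose i : ℕ) : K) • ν ^ i := by
    refine Finset.sum_subset (range_subset_range.2 (le_max_left _ _)) fun i _ hi => ?_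
    rw [mem_range, not_lt] at hi
    rw [Nat.choose_eq_zero_of_lt (by omega), Nat.cast_zero, zero_smul]
  have h3 : ∑ i ∈ range n, ((t.choose i : ℕ) : K) • ν ^ i =
      ∑ i ∈ range (max (t + 1) n), ((t.choose i : ℕ) : K) • ν ^ i := by
    refine Finset.sum_subset (range_subset_range.2 (le_max_right _ _)) fun i _ hi => ?_
    rw [mem_range, not_lt] at hi
    rw [pow_eq_zero_of_le hi hν, smul_zero]
  rw [h1, h2, ← h3, Finset.sum_range, LinearMap.sum_apply]
  rfl

theorem pol_nat {ν : End K X} {n : ℕ} (hν : ν ^ n = 0)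
    (φ : MultilinearMap K (fun _ : S => X) K) (v : S → X) (t : ℕ) :
    (pol ν n φ v).eval (t : K) = φ (fun l => ((1 + ν) ^ t) (v l)) := by
  have h1 : (fun l => ((1 + ν) ^ t) (v l)) =
      fun l => ∑ i : Fin n, ((t.choose i : ℕ) : K) • (ν ^ (i : ℕ)) (v l) := by
    funext l
    exact pow_expand ν hν t (v l)
  rw [h1, expand φ (fun _ i => ((t.choose i : ℕ) : K)) (fun l i => (ν ^ (i : ℕ)) (v l)), pol,
    eval_finsetSum]
  refine Finset.sum_congr rfl fun I _ => ?_
  rw [eval_mul, eval_C, eval_prod]
  congr 1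
  exact Finset.prod_congr rfl fun l _ => bp_nat _ _

/-- The logarithm. -/
noncomputable def lg (ν : End K X) (n : ℕ) : End K X :=
  ∑ i : Fin n, ((derivative (bp K i)).eval 0) • ν ^ (i : ℕ)

theorem pol_deriv {ν : End K X} {n : ℕ} (hν : ν ^ n = 0)
    (φ : MultilinearMap K (fun _ : S => X) K) (v : S → X) :
    (derivative (pol ν n φ v)).eval 0 = ∑ j, φ (update v j (lg ν n (v j))) := by
  have h0 : ∀ j, φ (update v j (lg ν n (v j))) = ∑ I : S → Fin n,
      ((∏ l ∈ univ.erase j, (bp K (I l)).eval 0) * (derivative (bp K (I j))).eval 0) *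
        φ (fun l => (ν ^ (I l : ℕ)) (v l)) := by
    intro j
    have h1 : update v j (lg ν n (v j)) = fun l => ∑ i : Fin n,
        (if l = j then (derivative (bp K i)).eval 0 else (bp K i).eval 0) •
          (ν ^ (i : ℕ)) (v l) := by
      funext l
      by_cases hl : l = j
      · subst hl
        rw [update_self, lg, LinearMap.sum_apply]
        refine Finset.sum_congr rfl fun i _ => ?_
        rw [if_pos rfl, LinearMap.smul_apply]
      · rw [update_of_ne hl]
        have h2 := pow_expand ν hν 0 (v l)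
        rw [pow_zero, Module.End.one_apply] at h2
        conv_lhs => rw [h2]
        refine Finset.sum_congr rfl fun i _ => ?_
        rw [if_neg hl, ← bp_nat, Nat.cast_zero]
    rw [h1, expand φ (fun l i => if l = j then (derivative (bp K i)).eval 0 else (bp K i).eval 0)
      (fun l i => (ν ^ (i : ℕ)) (v l))]
    refine Finset.sum_congr rfl fun I _ => ?_
    congr 1
    rw [← Finset.mul_prod_erase _ _ (Finset.mem_univ j), if_pos rfl, mul_comm]
    congr 1
    exact Finset.prod_congr rfl fun l hl => if_neg (Finset.ne_of_mem_erase hl)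
  rw [Finset.sum_congr rfl fun j _ => h0 j, Finset.sum_comm, pol, derivative_sum, eval_finsetSum]
  refine Finset.sum_congr rfl fun I _ => ?_
  rw [derivative_mul, derivative_C, mul_zero, add_zero, eval_mul, eval_C,
    derivative_prod_finset, eval_finsetSum, Finset.sum_mul]
  refine Finset.sum_congr rfl fun j _ => ?_
  rw [eval_mul, eval_prod]

/-- If the logarithm kills a form, the unipotent operator fixes it. -/
theorem fixed_of_kills {ν : End K X} {n : ℕ} (hν : ν ^ n = 0)
    (φ : MultilinearMap K (fun _ : S => X) K)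
    (h : ∀ v : S → X, ∑ j, φ (update v j (lg ν n (v j))) = 0) (v : S → X) :
    φ (fun l => (1 + ν) (v l)) = φ v := by
  have h1 : derivative (pol ν n φ v) = 0 := by
    refine eq_of_nat fun t => ?_
    have h2 : pol ν n φ (fun l => ((1 + ν) ^ t) (v l)) = taylor (t : K) (pol ν n φ v) := by
      refine eq_of_nat fun s => ?_
      rw [taylor_eval, pol_nat hν, ← Nat.cast_add, pol_nat hν]
      congr 1
      funext l
      rw [← Module.End.mul_apply, ← pow_add]
    have h3 := pol_deriv hν φ (fun l => ((1 + ν) ^ t) (v l))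
    rw [h, h2, taylor_apply, derivative_comp, eval_mul, eval_comp] at h3
    simpa using h3
  have h2 := derivative_eq_zero.1 h1
  have h3 := eq_C_of_natDegree_eq_zero h2
  have h4 := pol_nat hν φ v 1
  have h5 := pol_nat hν φ v 0
  rw [h3, eval_C] at h4 h5
  rw [pow_one] at h4
  rw [← h4, h5]
  congr 1

/-- If the values on the powers form a geometric sequence, the logarithm kills the form. -/
theorem kills_of_geom {ν : End K X} {n : ℕ} (hν : ν ^ n = 0)
    (φ : MultilinearMap K (fun _ : S => X) K) (v : S → X) {M : ℕ} (hM : 0 < M) {μ : K}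
    (h : ∀ t : ℕ, φ (fun l => ((1 + ν) ^ (M * t)) (v l)) = μ ^ t * φ v) :
    ∑ j, φ (update v j (lg ν n (v j))) = 0 := by
  have h1 : (pol ν n φ v).comp (C (M : K) * Polynomial.X) = C (φ v) := by
    refine geom_const (μ := μ) fun t => ?_
    rw [eval_comp, eval_mul, eval_C, eval_X, ← Nat.cast_mul, pol_nat hν, h]
  have h2 := congrArg (fun P => (derivative P).eval 0) h1
  simp only [derivative_comp, derivative_C, eval_zero, eval_mul, eval_comp, eval_C, eval_X,
    mul_zero] at h2
  rw [pol_deriv hν] at h2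
  have h3 : (derivative (C (M : K) * Polynomial.X)).eval 0 = (M : K) := by
    rw [derivative_mul, derivative_C, derivative_X, zero_mul, zero_add, mul_one, eval_C]
  rw [h3] at h2
  exact (mul_eq_zero.1 h2).resolve_left (Nat.cast_ne_zero.2 hM.ne')

end Pool.Agent.K1H13.X
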