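import Mathlib
import Pool.Agent.K1H13.X.Log
import Pool.Agent.K1H15.MT.Comm

/-!
# The logarithm of the unipotent part is in the Lie algebra
-/

set_option linter.unusedSectionVars false

namespace Pool.Agent.K1H13.X

open Module Finset Function Pool.Agent.H204R3.SP Pool.Agent.H204R3.GP Pool.Agent.W522.U
  Pool.Agent.TH118.CR Pool.Agent.K1H13.D4 Pool.Agent.TH118.SG Pool.Agent.TH125.Gal
  Pool.Agent.K1H13.N Pool.Agent.W516.FT Pool.Agent.K1H15.MT

variable {K : Type} [Field K] [CharZero K] [IsAlgClosed K] {X : Type} [AddCommGroup X] [Module K X]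
  [FiniteDimensional K X]

/-- The unipotent part of an invertible operator. -/
theorem exists_unip {A : End K X} (hA : Function.Injective A) : ∃ ν : End K X,
    ν ^ (finrank K X) = 0 ∧ ∀ β, ∀ x ∈ A.maxGenEigenspace β, ∀ t : ℕ,
      (A ^ t) x = β ^ t • ((1 + ν) ^ t) x := by
  obtain ⟨σ, hσ⟩ := exists_op A fun β => β⁻¹
  have hmem : ∀ β, ∀ x ∈ A.maxGenEigenspace β, A x ∈ A.maxGenEigenspace β := fun β x hx =>
    Module.End.mapsTo_maxGenEigenspace_of_comm (Commute.refl A) β hx
  let ν : End K X := σ * A - 1
  have hν : ∀ β, ∀ x ∈ A.maxGenEigenspace β, β ≠ 0 →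
      ν x = β⁻¹ • (A - algebraMap K (End K X) β) x := by
    intro β x hx hβ
    change (σ * A - 1) x = _
    rw [LinearMap.sub_apply, Module.End.mul_apply, hσ β _ (hmem β x hx), Module.End.one_apply,
      LinearMap.sub_apply, Module.algebraMap_end_apply, smul_sub, smul_smul,
      inv_mul_cancel₀ hβ, one_smul]
  have h0 : ∀ β, ∀ x ∈ A.maxGenEigenspace β, β = 0 → x = 0 := by
    rintro β x hx rfl
    obtain ⟨n, hn⟩ := mem_gen.1 hx
    rw [map_zero, sub_zero] at hn
    have h2 : ∀ n : ℕ, Function.Injective (A ^ n) := by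
      intro n
      induction n with
      | zero => exact fun x y h => h
      | succ n ih =>
        intro x y hxy
        rw [pow_succ, Module.End.mul_apply, Module.End.mul_apply] at hxy
        exact hA (ih hxy)
    exact h2 n (by rw [hn, map_zero])
  have hνm : ∀ β, ∀ x ∈ A.maxGenEigenspace β, ν x ∈ A.maxGenEigenspace β := by
    intro β x hx
    by_cases hβ : β = 0
    · rw [h0 β x hx hβ, map_zero]
      exact Submodule.zero_mem _
    · rw [hν β x hx hβ]
      refine Submodule.smul_mem _ _ ?_
      rw [LinearMap.sub_apply]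
      refine Submodule.sub_mem _ (hmem β x hx) ?_
      rw [Module.algebraMap_end_apply]
      exact Submodule.smul_mem _ _ hx
  have hνp : ∀ (n : ℕ) (β), ∀ x ∈ A.maxGenEigenspace β, β ≠ 0 →
      (ν ^ n) x = (β⁻¹) ^ n • ((A - algebraMap K (End K X) β) ^ n) x := by
    intro n
    induction n with
    | zero =>
      intro β x _ _
      rw [pow_zero, pow_zero, pow_zero, one_smul]
    | succ n ih =>
      intro β x hx hβ
      have h1 : (A - algebraMap K (End K X) β) x ∈ A.maxGenEigenspace β := by
        rw [LinearMap.sub_apply]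
        refine Submodule.sub_mem _ (hmem β x hx) ?_
        rw [Module.algebraMap_end_apply]
        exact Submodule.smul_mem _ _ hx
      rw [pow_succ, Module.End.mul_apply, hν β x hx hβ, map_smul, ih β _ h1 hβ, smul_smul,
        pow_succ (A - algebraMap K (End K X) β), Module.End.mul_apply, pow_succ' β⁻¹]
  refine ⟨ν, ?_, fun β x hx t => ?_⟩
  · refine op_ext A fun β x hx => ?_
    rw [LinearMap.zero_apply]
    by_cases hβ : β = 0
    · rw [h0 β x hx hβ, map_zero]
    · rw [hνp _ β x hx hβ]
      have h1 : ((A - algebraMap K (End K X) β) ^ finrank K X) x = 0 := by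
        rw [Module.End.maxGenEigenspace_eq_genEigenspace_finrank] at hx
        rw [Module.End.mem_genEigenspace_nat] at hx
        exact hx
      rw [h1, smul_zero]
  · have h1 : ∀ y ∈ A.maxGenEigenspace β, A y = β • (1 + ν) y := by
      intro y hy
      by_cases hβ : β = 0
      · rw [h0 β y hy hβ, map_zero, map_zero, smul_zero]
      · rw [LinearMap.add_apply, Module.End.one_apply, hν β y hy hβ, smul_add, smul_smul,
          mul_inv_cancel₀ hβ, one_smul, LinearMap.sub_apply, Module.algebraMap_end_apply]
        abel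
    have h2 : ∀ y ∈ A.maxGenEigenspace β, (1 + ν) y ∈ A.maxGenEigenspace β := by
      intro y hy
      rw [LinearMap.add_apply, Module.End.one_apply]
      exact Submodule.add_mem _ hy (hνm β y hy)
    clear_value ν
    induction t generalizing x with
    | zero => simp
    | succ t ih =>
      rw [pow_succ, Module.End.mul_apply, h1 x hx, map_smul, ih _ (h2 x hx), smul_smul,
        pow_succ' β, pow_succ (1 + ν), Module.End.mul_apply]

variable {S : Type} [Fintype S] [DecidableEq S]

open scoped Classical in
/-- Multilinear forms are determined on the generalized eigenvectors. -/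
theorem form_ext (A : End K X) {φ ψ : MultilinearMap K (fun _ : S => X) K}
    (h : ∀ (β : S → K) (v : S → X), (∀ j, v j ∈ A.maxGenEigenspace (β j)) → φ v = ψ v) :
    φ = ψ := by
  let b : ∀ β : K, Basis (Fin (finrank K (A.maxGenEigenspace β))) K (A.maxGenEigenspace β) :=
    fun β => Module.finBasis K _
  let B := (gen_internal A).collectedBasis b
  have hB : ∀ i, B i ∈ A.maxGenEigenspace i.1 := (gen_internal A).collectedBasis_mem b
  refine Module.Basis.ext_multilinear (fun _ => B) fun r => ?_
  exact h (fun j => (r j).1) (fun j => B (r j)) fun j => hB (r j)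

/-- The values on generalized eigenvectors. -/
theorem val_pow {A ν : End K X} (hν : ∀ β, ∀ x ∈ A.maxGenEigenspace β, ∀ t : ℕ,
      (A ^ t) x = β ^ t • ((1 + ν) ^ t) x) (φ : MultilinearMap K (fun _ : S => X) K)
    {β : S → K} {v : S → X} (hv : ∀ j, v j ∈ A.maxGenEigenspace (β j)) (t : ℕ) :
    φ (fun l => (A ^ t) (v l)) = (∏ j, β j) ^ t * φ (fun l => ((1 + ν) ^ t) (v l)) := by
  have h1 : (fun l => (A ^ t) (v l)) = fun l => β l ^ t • ((1 + ν) ^ t) (v l) := by
    funext l
    exact hν _ _ (hv l) t
  rw [h1, MultilinearMap.map_smul_univ, smul_eq_mul, Finset.prod_pow]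

theorem kills_lg {A ν : End K X} {n : ℕ} (hn : ν ^ n = 0) (hA : Function.Injective A)
    (hν : ∀ β, ∀ x ∈ A.maxGenEigenspace β, ∀ t : ℕ, (A ^ t) x = β ^ t • ((1 + ν) ^ t) x)
    (φ : MultilinearMap K (fun _ : S => X) K) {M : ℕ} (hM : 0 < M) {c : K}
    (hc : ∀ v, φ (fun l => (A ^ M) (v l)) = c * φ v) : Kills (lg ν n) φ := by
  have hct : ∀ (t : ℕ) v, φ (fun l => (A ^ (M * t)) (v l)) = c ^ t * φ v := by
    intro t
    induction t with
    | zero =>
      intro v
      rw [mul_zero, pow_zero, pow_zero, one_mul]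
      rfl
    | succ t ih =>
      intro v
      have h1 : (fun l => (A ^ (M * (t + 1))) (v l)) =
          fun l => (A ^ (M * t)) ((A ^ M) (v l)) := by
        funext l
        rw [← Module.End.mul_apply, ← pow_add, mul_add, mul_one]
      rw [h1, ih, hc, pow_succ]
      ring
  let D : MultilinearMap K (fun _ : S => X) K :=
    ∑ j, φ.compLinearMap fun i => if i = j then lg ν n else LinearMap.id
  have hD : ∀ v, D v = ∑ j, φ (update v j (lg ν n (v j))) := by
    intro v
    rw [_root_.sum_apply]
    refine sum_congr rfl fun j _ => ?_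
    rw [MultilinearMap.compLinearMap_apply]
    congr 1
    funext i
    by_cases hi : i = j
    · subst hi
      rw [if_pos rfl, update_self]
    · rw [if_neg hi, update_of_ne hi, LinearMap.id_apply]
  have key : D = 0 := by
    refine form_ext A fun β v hv => ?_
    rw [hD, _root_.zero_apply]
    by_cases h0 : ∏ j, β j = 0
    · -- then some vector vanishes
      obtain ⟨j, -, hj⟩ := Finset.prod_eq_zero_iff.1 h0
      have hvj : v j = 0 := by
        have h1 := hν (β j) (v j) (hv j) 1
        rw [pow_one, pow_one, hj, zero_smul] at h1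
        exact hA (by rw [h1, map_zero])
      refine Finset.sum_eq_zero fun i _ => ?_
      by_cases hi : j = i
      · subst hi
        refine φ.map_coord_zero j ?_
        rw [update_self, hvj, map_zero]
      · exact φ.map_coord_zero j (by rw [update_of_ne hi, hvj])
    · refine kills_of_geom hn φ v hM (μ := c / (∏ j, β j) ^ M) fun t => ?_
      have h1 := hct t v
      rw [val_pow hν φ hv, pow_mul] at h1
      rw [div_pow]
      have h2 : ((∏ j, β j) ^ M) ^ t ≠ 0 := pow_ne_zero _ (pow_ne_zero _ h0)
      field_simp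
      rw [mul_comm]
      linear_combination h1
  intro v
  rw [← hD, key, _root_.zero_apply]

variable {Γ : Type} [Group Γ] {R : Representation K Γ X} {χ : Γ →* K}

theorem R_inj (g : Γ) : Function.Injective (R g) := by
  intro x y hxy
  have h1 := congrArg (R g⁻¹) hxy
  rwa [rr', rr'] at h1

/-- The logarithm of the unipotent part of a group element kills the Tate forms. -/
theorem lg_mem {g : Γ} {ν : End K X} {n : ℕ} (hn : ν ^ n = 0)
    (hν : ∀ β, ∀ x ∈ Module.End.maxGenEigenspace (R g) β, ∀ t : ℕ,
      ((R g) ^ t) x = β ^ t • ((1 + ν) ^ t) x) : lg ν n ∈ lieT R χ := by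
  intro m φ hφ
  obtain ⟨Δ, hΔ, h1⟩ := hφ
  obtain ⟨M, hM, hgM⟩ := exists_pow hΔ g
  refine kills_lg hn (R_inj g) hν φ hM (c := χ (g ^ M) ^ m) fun v => ?_
  have h2 := h1 _ hgM v
  rw [map_pow] at h2
  exact h2

/-- A form killed by the Lie algebra is multiplied by the product of the eigenvalues. -/
theorem val_g {φ : MultilinearMap K (fun _ : S => X) K} (hφ : ∀ Y ∈ lieT R χ, Kills Y φ) (g : Γ)
    {β : S → K} {v : S → X} (hv : ∀ j, v j ∈ Module.End.maxGenEigenspace (R g) (β j)) :
    φ (fun l => R g (v l)) = (∏ j, β j) * φ v := by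
  obtain ⟨ν, hn, hν⟩ := exists_unip (R_inj (R := R) g)
  have h1 := fixed_of_kills hn φ (hφ _ (lg_mem (χ := χ) hn hν)) v
  have h2 := val_pow hν φ hv 1
  rw [pow_one, pow_one, pow_one, h1] at h2
  exact h2

end Pool.Agent.K1H13.X
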