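import Mathlib
import Pool.Agent.K1H13.X.Uni

/-!
# Forms killed by the Lie algebra of the Tate classes are Tate classes
-/

set_option linter.unusedSectionVars false

namespace Pool.Agent.K1H13.X

open Module Finset Function Pool.Agent.H204R3.SP Pool.Agent.H204R3.GP Pool.Agent.W522.U
  Pool.Agent.TH118.CR Pool.Agent.K1H13.D4 Pool.Agent.TH118.SG Pool.Agent.TH125.Gal
  Pool.Agent.K1H13.N Pool.Agent.W516.FT Pool.Agent.K1H15.MT

variable {K : Type} [Field K] [CharZero K] [IsAlgClosed K] {X : Type} [AddCommGroup X] [Module K X]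
  [FiniteDimensional K X] {Γ : Type} [Group Γ]

/-- The space of the forms in `2 m` variables. -/
abbrev Fm (K X : Type) [Field K] [AddCommGroup X] [Module K X] (m : ℕ) : Type :=
  MultilinearMap K (fun _ : Fin m × Fin 2 => X) K

/-- The action of the group on the forms in `2 m` variables. -/
noncomputable def fr (R : Representation K Γ X) (χ : Γ →* K) (m : ℕ) :
    Representation K Γ (Fm K X m) where
  toFun g :=
    { toFun := fun Φ => χ g ^ m • Φ.compLinearMap fun _ => R g⁻¹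
      map_add' := fun Φ Ψ => by
        refine MultilinearMap.ext fun v => ?_
        simp only [_root_.smul_apply, _root_.add_apply, MultilinearMap.compLinearMap_apply,
          smul_add]
      map_smul' := fun c Φ => by
        refine MultilinearMap.ext fun v => ?_
        simp only [_root_.smul_apply, MultilinearMap.compLinearMap_apply, smul_eq_mul,
          RingHom.id_apply]
        ring }
  map_one' := by
    refine LinearMap.ext fun Φ => MultilinearMap.ext fun v => ?_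
    change χ 1 ^ m * Φ (fun l => R 1⁻¹ (v l)) = Φ v
    rw [map_one, one_pow, one_mul, inv_one, map_one]
    rfl
  map_mul' g h := by
    refine LinearMap.ext fun Φ => MultilinearMap.ext fun v => ?_
    change χ (g * h) ^ m * Φ (fun l => R (g * h)⁻¹ (v l)) =
      χ g ^ m * (χ h ^ m * Φ (fun l => R h⁻¹ (R g⁻¹ (v l))))
    rw [map_mul, mul_pow, mul_assoc, mul_inv_rev, map_mul]
    rfl

theorem fr_apply (R : Representation K Γ X) (χ : Γ →* K) (m : ℕ) (g : Γ) (Φ : Fm K X m)
    (v : Fin m × Fin 2 → X) : fr R χ m g Φ v = χ g ^ m * Φ (fun l => R g⁻¹ (v l)) := rfl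

variable {R : Representation K Γ X} {χ : Γ →* K} {m : ℕ}

theorem chi_inv (χ : Γ →* K) (g : Γ) (m : ℕ) : χ g⁻¹ ^ m * χ g ^ m = 1 := by
  rw [← mul_pow, ← map_mul, inv_mul_cancel, map_one, one_pow]

/-- The roots of unity by which the group multiplies a form have bounded order. -/
def BddForm (R : Representation K Γ X) (χ : Γ →* K) (m : ℕ) : Prop :=
  ∃ M : ℕ, 0 < M ∧ ∀ (g : Γ) (a : K), (∃ Φ : Fm K X m, Φ ≠ 0 ∧
    ∀ v, Φ (fun l => R g (v l)) = a * χ g ^ m * Φ v) → (∃ k : ℕ, 0 < k ∧ a ^ k = 1) → a ^ M = 1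

/-- The forms killed by the Lie algebra. -/
def Kd (R : Representation K Γ X) (χ : Γ →* K) (m : ℕ) : Submodule K (Fm K X m) where
  carrier := {Φ | ∀ Y ∈ lieT R χ, Kills Y Φ}
  zero_mem' := fun Y _ v => Finset.sum_eq_zero fun j _ => rfl
  add_mem' := fun {a b} ha hb Y hY v => by
    have h1 := ha Y hY v
    have h2 := hb Y hY v
    simp only [_root_.add_apply, Finset.sum_add_distrib, h1, h2, add_zero]
  smul_mem' := fun c a ha Y hY v => by
    have h1 := ha Y hY v
    simp only [_root_.smul_apply, ← Finset.smul_sum, h1, smul_zero]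

/-- The Tate forms. -/
def Tf (R : Representation K Γ X) (χ : Γ →* K) (m : ℕ) : Submodule K (Fm K X m) where
  carrier := {Φ | IsTate R χ m Φ}
  zero_mem' := ⟨⊤, inferInstance, fun s _ v => by
    change (0 : K) = χ s ^ m * 0
    rw [mul_zero]⟩
  add_mem' := fun {a b} ⟨Δ, hΔ, ha⟩ ⟨Δ', hΔ', hb⟩ => ⟨Δ ⊓ Δ', inferInstance, fun s hs v => by
    change a _ + b _ = χ s ^ m * (a v + b v)
    rw [ha s hs.1, hb s hs.2, mul_add]⟩
  smul_mem' := fun c a ⟨Δ, hΔ, ha⟩ => ⟨Δ, hΔ, fun s hs v => by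
    change c * a _ = χ s ^ m * (c * a v)
    rw [ha s hs]
    ring⟩

theorem Kd_stable (g : Γ) {Φ : Fm K X m} (hΦ : Φ ∈ Kd R χ m) : fr R χ m g Φ ∈ Kd R χ m := by
  intro Y hY v
  have h1 := hΦ _ (lieT_conj R χ g⁻¹ hY) (fun l => R g⁻¹ (v l))
  rw [inv_inv] at h1
  have h2 : ∀ j, fr R χ m g Φ (update v j (Y (v j))) = χ g ^ m *
      Φ (update (fun l => R g⁻¹ (v l)) j ((R g⁻¹ * Y * R g) (R g⁻¹ (v j)))) := by
    intro j
    rw [fr_apply]
    congr 2
    funext l
    by_cases hl : l = j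
    · subst hl
      rw [update_self, update_self, Module.End.mul_apply, Module.End.mul_apply, rr]
    · rw [update_of_ne hl, update_of_ne hl]
  rw [Finset.sum_congr rfl fun j _ => h2 j, ← Finset.mul_sum, h1, mul_zero]

theorem Tf_stable (g : Γ) {Φ : Fm K X m} (hΦ : Φ ∈ Tf R χ m) : fr R χ m g Φ ∈ Tf R χ m := by
  obtain ⟨Δ, hΔ, h1⟩ := hΦ
  refine ⟨Δ.comap (MulAut.conj g⁻¹).toMonoidHom, ⟨by
    rw [Subgroup.index_comap_of_surjective _ (MulAut.conj g⁻¹).surjective]
    exact hΔ.index_ne_zero⟩, fun t ht v => ?_⟩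
  have h2 : g⁻¹ * t * g ∈ Δ := by
    have h3 : g⁻¹ * t * g⁻¹⁻¹ ∈ Δ := ht
    rwa [inv_inv] at h3
  have h3 := h1 _ h2 (fun l => R g⁻¹ (v l))
  rw [fr_apply, fr_apply]
  have h4 : (fun l => R (g⁻¹ * t * g) (R g⁻¹ (v l))) = fun l => R g⁻¹ (R t (v l)) := by
    funext l
    rw [map_mul, map_mul, Module.End.mul_apply, Module.End.mul_apply, rr]
  have h5 : χ (g⁻¹ * t * g) = χ t := by
    rw [map_mul, map_mul, mul_right_comm, ← map_mul, inv_mul_cancel, map_one, one_mul]
  rw [h4, h5] at h3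
  rw [h3]
  ring

/-- The group multiplies the eigenforms killed by the Lie algebra by roots of unity. -/
theorem eig_root {g : Γ} {a : K} {Φ : Fm K X m} (hΦ : Φ ∈ Kd R χ m) (hΦ0 : Φ ≠ 0)
    (ha : fr R χ m g Φ = a • Φ) : ∃ k : ℕ, 0 < k ∧ a ^ k = 1 := by
  obtain ⟨β, v, hv, hv0⟩ : ∃ (β : Fin m × Fin 2 → K) (v : Fin m × Fin 2 → X),
      (∀ j, v j ∈ Module.End.maxGenEigenspace (R g⁻¹) (β j)) ∧ Φ v ≠ 0 := by
    by_contra hcon
    push Not at hcon
    exact hΦ0 (form_ext (R g⁻¹) fun β v hv => hcon β v hv)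
  have h1 := val_g hΦ g⁻¹ hv
  have h2 := congrArg (fun F : Fm K X m => F v) ha
  simp only [_root_.smul_apply, smul_eq_mul] at h2
  rw [fr_apply, h1, ← mul_assoc] at h2
  have h3 : χ g ^ m * ∏ j, β j = a := mul_right_cancel₀ hv0 h2
  have hβ : ∀ j, β j ≠ 0 := by
    intro j h0
    obtain ⟨n, hn⟩ := mem_gen.1 (hv j)
    rw [h0, map_zero, sub_zero] at hn
    have h2 : ∀ n : ℕ, Function.Injective ((R g⁻¹) ^ n) := by
      intro n
      induction n with
      | zero => exact fun x y h => h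
      | succ n ih =>
        intro x y hxy
        rw [pow_succ, Module.End.mul_apply, Module.End.mul_apply] at hxy
        exact R_inj g⁻¹ (ih hxy)
    have h4 : v j = 0 := h2 n (by rw [hn, map_zero])
    exact hv0 (Φ.map_coord_zero j h4)
  have hχ : χ g ≠ 0 := by
    intro h0
    have h4 : χ g * χ g⁻¹ = 1 := by rw [← map_mul, mul_inv_cancel, map_one]
    rw [h0, zero_mul] at h4
    exact zero_ne_one h4
  have ha0 : a ≠ 0 := by
    rw [← h3]
    exact mul_ne_zero (pow_ne_zero _ hχ) (Finset.prod_ne_zero_iff.2 fun j _ => hβ j)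
  by_contra hno
  push Not at hno
  obtain ⟨θ, hθ⟩ := exists_add (Units.mk0 a ha0)
    (fun k hk h => hno k hk (congrArg Units.val h))
  apply hθ
  rw [← ext0_ne θ ha0, ← h3, ext0_mul θ (pow_ne_zero _ hχ)
    (Finset.prod_ne_zero_iff.2 fun j _ => hβ j), ext0_prod θ _ _ fun j _ => hβ j]
  obtain ⟨Y, hY, hYP⟩ := exists_slope (ρ := R) (χ := cu χ) g⁻¹ θ
  have h4 := hΦ _ (slope_lie hYP) v
  have h5 : ∀ j, Φ (update v j ((Y - (ext0 θ (cu χ g⁻¹ : K) / 2) • (1 : End K X)) (v j))) =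
      (ext0 θ (β j) - ext0 θ (χ g⁻¹) / 2) * Φ v := by
    intro j
    rw [LinearMap.sub_apply, MultilinearMap.map_update_sub, LinearMap.smul_apply,
      MultilinearMap.map_update_smul, Module.End.one_apply, update_eq_self, smul_eq_mul,
      hY _ _ (hv j), MultilinearMap.map_update_smul, update_eq_self, smul_eq_mul, cu_apply]
    ring
  rw [Finset.sum_congr rfl fun j _ => h5 j, ← Finset.sum_mul, Finset.sum_sub_distrib,
    Finset.sum_const, Finset.card_univ, Fintype.card_prod, Fintype.card_fin, Fintype.card_fin,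
    nsmul_eq_mul] at h4
  have h6 := (mul_eq_zero.1 h4).resolve_right hv0
  push_cast at h6
  have h7 : ext0 θ (χ g ^ m) + m * ext0 θ (χ g⁻¹) = 0 := by
    have h8 : χ g⁻¹ ≠ 0 := by
      intro h0
      have h4 : χ g * χ g⁻¹ = 1 := by rw [← map_mul, mul_inv_cancel, map_one]
      rw [h0, mul_zero] at h4
      exact zero_ne_one h4
    rcases Nat.eq_zero_or_pos m with hm | hm
    · subst hm
      rw [pow_zero, ext0_one, Nat.cast_zero, zero_mul, add_zero]
    · rw [ext0_pow θ _ hm, ← mul_add, ← ext0_mul θ hχ h8, ← map_mul, mul_inv_cancel, map_one,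
        ext0_one, mul_zero]
  linear_combination h6 + h7

/-- One subgroup of finite index for all Tate forms. -/
theorem exists_common_form (R : Representation K Γ X) (χ : Γ →* K) (m : ℕ) :
    ∃ Δ : Subgroup Γ, Δ.FiniteIndex ∧
      ∀ Φ ∈ Tf R χ m, ∀ s ∈ Δ, ∀ v, Φ (fun l => R s (v l)) = χ s ^ m * Φ v := by
  have hfin : Module.Finite K (Tf R χ m) := inferInstance
  obtain ⟨T, hT⟩ := Module.Finite.iff_fg.1 hfin
  have h1 : ∀ t : T, IsTate R χ m (t : Fm K X m) := fun t => by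
    have h2 : (t : Fm K X m) ∈ Tf R χ m := by
      rw [← hT]
      exact Submodule.subset_span t.2
    exact h2
  choose Δ hΔ h2 using h1
  refine ⟨⨅ i, Δ i, Subgroup.finiteIndex_iInf hΔ, fun φ hφ s hs v => ?_⟩
  rw [← hT] at hφ
  induction hφ using Submodule.span_induction with
  | mem x hx => exact h2 ⟨x, hx⟩ s (Subgroup.mem_iInf.1 hs ⟨x, hx⟩) v
  | zero =>
    change (0 : K) = χ s ^ m * 0
    rw [mul_zero]
  | add x y _ _ hx hy =>
    change x _ + y _ = χ s ^ m * (x v + y v)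
    rw [hx, hy, mul_add]
  | smul c x _ hx =>
    change c * x _ = χ s ^ m * (c * x v)
    rw [hx]
    ring

/-- **Forms killed by the Lie algebra of the Tate classes are Tate classes.** -/
theorem tate_of_kills (hb : BddForm R χ m) {φ : Fm K X m} (hφ : ∀ Y ∈ lieT R χ, Kills Y φ) :
    IsTate R χ m φ := by
  classical
  obtain ⟨M, hM, hb⟩ := hb
  by_contra hcon
  obtain ⟨H, hH, ψ, hψC, hψN, hψ⟩ := exists_fixed_mod (fr R χ m) hM (N := Tf R χ m)
    (C := Kd R χ m) (fun g Φ hΦ => Tf_stable g hΦ) (fun g Φ hΦ => Kd_stable g hΦ)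
    (fun h => hcon (h hφ)) (fun g a ⟨Φ, hΦC, hΦ0, hΦ⟩ => by
      refine hb g⁻¹ a ⟨Φ, hΦ0, fun v => ?_⟩ (eig_root hΦC hΦ0 hΦ)
      have h1 := congrArg (fun F : Fm K X m => F v) hΦ
      simp only [_root_.smul_apply, smul_eq_mul] at h1
      rw [fr_apply] at h1
      linear_combination χ g⁻¹ ^ m * h1 - Φ (fun l => R g⁻¹ (v l)) * chi_inv χ g m)
  obtain ⟨Δ₀, hΔ₀, hcom⟩ := exists_common_form R χ m
  apply hψN
  refine ⟨Δ₀ ⊓ H, inferInstance, fun s hs v => ?_⟩
  have hθ := hψ s⁻¹ (H.inv_mem hs.2)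
  have hzero : fr R χ m s⁻¹ ψ - ψ = 0 := by
    refine form_ext (R s) fun β v hv => ?_
    have h1 := val_g hψC s hv
    have h2 := val_g (χ := χ) (φ := fr R χ m s⁻¹ ψ - ψ)
      (fun Y hY => hY m _ hθ) s hv
    have h3 := hcom _ hθ s hs.1 v
    rw [h2] at h3
    have h5 : (fr R χ m s⁻¹ ψ - ψ) v = χ s⁻¹ ^ m * ((∏ j, β j) * ψ v) - ψ v := by
      rw [_root_.sub_apply, fr_apply, inv_inv, h1]
    rw [_root_.zero_apply]
    by_contra hne
    have h4 := mul_right_cancel₀ hne h3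
    apply hne
    rw [h5, h4]
    linear_combination ψ v * chi_inv χ s m
  have h1 := congrArg (fun F : Fm K X m => F v) hzero
  simp only [_root_.sub_apply, _root_.zero_apply] at h1
  rw [fr_apply, inv_inv] at h1
  linear_combination χ s ^ m * h1 - ψ (fun l => R s (v l)) * chi_inv χ s m

end Pool.Agent.K1H13.X
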