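import Mathlib
import Pool.Agent.K1H13.X.Key
import Pool.Agent.K1H13.N.Desc
import Pool.Agent.K1H15.MT.Desc

/-!
# Descent to the `ℓ`-adic numbers
-/

set_option linter.unusedSectionVars false

namespace Pool.Agent.K1H13.X

open Module Finset Function TensorProduct Pool.Agent.H204R3.SP Pool.Agent.H204R3.GP
  Pool.Agent.W522.U Pool.Agent.K1H13.N Pool.Agent.W516.FT Pool.Agent.W516.DR
  Pool.Agent.K1H15.MT

noncomputable section

variable {ℓ : ℕ} [Fact ℓ.Prime] {V : Type} [AddCommGroup V] [Module ℚ_[ℓ] V]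
  [FiniteDimensional ℚ_[ℓ] V] {Γ : Type} [Group Γ] (ρ : Representation ℚ_[ℓ] Γ V)
  (χ : Γ →* ℚ_[ℓ]) (m : ℕ)

/-- The action on the forms, normalised. -/
def tw (g : Γ) : Fm ℚ_[ℓ] V m →ₗ[ℚ_[ℓ]] Fm ℚ_[ℓ] V m where
  toFun := fun Φ => χ g⁻¹ ^ m • Φ.compLinearMap fun _ => ρ g
  map_add' := fun Φ Ψ => by
    refine MultilinearMap.ext fun v => ?_
    simp only [_root_.smul_apply, _root_.add_apply, MultilinearMap.compLinearMap_apply,
      smul_add]
  map_smul' := fun c Φ => by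
    refine MultilinearMap.ext fun v => ?_
    simp only [_root_.smul_apply, MultilinearMap.compLinearMap_apply, smul_eq_mul,
      RingHom.id_apply]
    ring

theorem tw_apply (g : Γ) (Φ : Fm ℚ_[ℓ] V m) (v : Fin m × Fin 2 → V) :
    tw ρ χ m g Φ v = χ g⁻¹ ^ m * Φ (fun l => ρ g (v l)) := rfl

/-- The eigenvalues of the group on the forms are roots of a polynomial of bounded degree. -/
theorem root_charpoly {g : Γ} {a : AlgebraicClosure ℚ_[ℓ]}
    {Φ : Fm (AlgebraicClosure ℚ_[ℓ]) (AlgebraicClosure ℚ_[ℓ] ⊗[ℚ_[ℓ]] V) m} (hΦ0 : Φ ≠ 0)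
    (hΦ : ∀ v, Φ (fun l => bcr ρ (AlgebraicClosure ℚ_[ℓ]) g (v l)) =
      a * bcc χ (AlgebraicClosure ℚ_[ℓ]) g ^ m * Φ v) :
    Polynomial.aeval a (tw ρ χ m g).charpoly = 0 := by
  classical
  let Ω := AlgebraicClosure ℚ_[ℓ]
  obtain ⟨v₀, hv₀⟩ : ∃ v : Fin m × Fin 2 → V, Φ (fun l => (1 : Ω) ⊗ₜ[ℚ_[ℓ]] v l) ≠ 0 := by
    by_contra hcon
    push Not at hcon
    apply hΦ0
    let b := Module.finBasis ℚ_[ℓ] V
    refine Basis.ext_multilinear (fun _ => b.baseChange Ω) fun I => ?_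
    rw [_root_.zero_apply]
    have h1 := hcon (fun l => b (I l))
    have h2 : (fun l => b.baseChange Ω (I l)) = fun l => (1 : Ω) ⊗ₜ[ℚ_[ℓ]] b (I l) := by
      funext l
      rw [Basis.baseChange_apply]
    rw [h2]
    exact h1
  have hone : χ g⁻¹ ^ m * χ g ^ m = 1 := by
    rw [← mul_pow, ← map_mul, inv_mul_cancel, map_one, one_pow]
  have hstep : ∀ (c : Ω) (lam : Ω →ₗ[ℚ_[ℓ]] ℚ_[ℓ]),
      tw ρ χ m g (fcmp (lam ∘ₗ LinearMap.mulLeft ℚ_[ℓ] c) Φ) =
        fcmp (lam ∘ₗ LinearMap.mulLeft ℚ_[ℓ] (c * a)) Φ := by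
    intro c lam
    refine MultilinearMap.ext fun v => ?_
    rw [tw_apply, fcmp_apply, fcmp_apply]
    simp only [LinearMap.comp_apply, LinearMap.mulLeft_apply]
    have h1 := hΦ (fun l => (1 : Ω) ⊗ₜ[ℚ_[ℓ]] v l)
    simp only [bcr_tmul] at h1
    have h2 : Φ (fun l => (1 : Ω) ⊗ₜ[ℚ_[ℓ]] ρ g (v l)) =
        (χ g ^ m) • (a * Φ (fun l => (1 : Ω) ⊗ₜ[ℚ_[ℓ]] v l)) := by
      rw [h1, bcc_apply, ← map_pow, Algebra.smul_def]
      ring
    rw [h2, mul_smul_comm, map_smul, smul_eq_mul, ← mul_assoc, hone, one_mul, mul_assoc]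
  have hpoly : ∀ (p : Polynomial ℚ_[ℓ]) (lam : Ω →ₗ[ℚ_[ℓ]] ℚ_[ℓ]),
      (Polynomial.aeval (tw ρ χ m g) p) (fcmp lam Φ) =
        fcmp (lam ∘ₗ LinearMap.mulLeft ℚ_[ℓ] (Polynomial.aeval a p)) Φ := by
    intro p lam
    induction p using Polynomial.induction_on' with
    | add p q hp hq =>
      rw [map_add, LinearMap.add_apply, hp, hq]
      refine MultilinearMap.ext fun v => ?_
      rw [_root_.add_apply, fcmp_apply, fcmp_apply, fcmp_apply]
      simp only [LinearMap.comp_apply, LinearMap.mulLeft_apply]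
      rw [map_add (Polynomial.aeval a), add_mul, map_add lam]
    | monomial n c =>
      rw [Polynomial.aeval_monomial, Polynomial.aeval_monomial]
      have h1 : ∀ n : ℕ, ((tw ρ χ m g) ^ n) (fcmp lam Φ) =
          fcmp (lam ∘ₗ LinearMap.mulLeft ℚ_[ℓ] (a ^ n)) Φ := by
        intro n
        induction n with
        | zero =>
          rw [pow_zero, pow_zero, LinearMap.mulLeft_one, LinearMap.comp_id]
          rfl
        | succ n ih =>
          rw [pow_succ', Module.End.mul_apply, ih, hstep, pow_succ]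
      rw [Module.End.mul_apply, h1, Module.algebraMap_end_apply]
      refine MultilinearMap.ext fun v => ?_
      rw [_root_.smul_apply, fcmp_apply, fcmp_apply]
      simp only [LinearMap.comp_apply, LinearMap.mulLeft_apply]
      rw [← map_smul, Algebra.smul_def, mul_assoc]
  have h1 : Polynomial.aeval a (tw ρ χ m g).charpoly * Φ (fun l => (1 : Ω) ⊗ₜ[ℚ_[ℓ]] v₀ l) =
      0 := by
    apply eq_zero_of_dual (k := ℚ_[ℓ])
    intro lam
    have h2 := hpoly (tw ρ χ m g).charpoly lam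
    rw [LinearMap.aeval_self_charpoly, LinearMap.zero_apply] at h2
    have h3 := congrArg (fun F : Fm ℚ_[ℓ] V m => F v₀) h2
    exact h3.symm
  exact (mul_eq_zero.1 h1).resolve_right hv₀

/-- The roots of unity by which the group multiplies a form have bounded order. -/
theorem bddForm : BddForm (bcr ρ (AlgebraicClosure ℚ_[ℓ])) (bcc χ (AlgebraicClosure ℚ_[ℓ])) m := by
  set D := (finrank ℚ_[ℓ] (Fm ℚ_[ℓ] V m)) with hD
  refine ⟨(((ℓ ^ 2) ^ D)).factorial, Nat.factorial_pos _, ?_⟩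
  rintro g a ⟨Φ, hΦ0, hΦ⟩ ⟨k, hk, hak⟩
  refine ru_bound D hk hak ?_
  have h1 := root_charpoly ρ χ m hΦ0 hΦ
  have h2 := minpoly.min ℚ_[ℓ] a (tw ρ χ m g).charpoly_monic h1
  have h3 := Polynomial.natDegree_le_natDegree h2
  rwa [LinearMap.charpoly_natDegree, ← hD] at h3

variable {ρ χ m}

/-- **Forms killed by the Lie algebra of the Tate classes are Tate classes.** -/
theorem tate_of_kills_padic {φ : Fm ℚ_[ℓ] V m} (hφ : ∀ Y ∈ lieT ρ χ, Kills Y φ) :
    IsTate ρ χ m φ := by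
  classical
  let Ω := AlgebraicClosure ℚ_[ℓ]
  have _ : CharZero Ω := charZero_of_injective_algebraMap (algebraMap ℚ_[ℓ] Ω).injective
  let b := Module.finBasis ℚ_[ℓ] V
  obtain ⟨Δ, hΔ, h1⟩ := tate_of_kills (bddForm ρ χ m) (φ := bcm (Ω := Ω) b φ) fun Z hZ =>
    (kills_bcm_iff b φ Z).2 fun lam => hφ _ (lie_cmp ρ χ hZ lam)
  refine ⟨Δ, hΔ, fun s hs v => ?_⟩
  have h2 := h1 s hs (fun l => (1 : Ω) ⊗ₜ[ℚ_[ℓ]] v l)
  simp only [bcr_tmul] at h2
  rw [bcm_one, bcm_one, bcc_apply, ← map_pow, ← map_mul] at h2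
  exact (algebraMap ℚ_[ℓ] Ω).injective h2

end

end Pool.Agent.K1H13.X
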