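import Mathlib
import Pool.Agent.K1H13.X.Defs
import Pool.Agent.K1H13.X.Down
import Pool.Agent.K1H15.MT.Alt

/-!
# Alternating forms on the powers and multilinear forms
-/

set_option linter.unusedSectionVars false

namespace Pool.Agent.K1H13.X

open Module Finset Function TensorProduct Pool.Agent.H204R3.SP Pool.Agent.H204R3.GP
  Pool.Agent.W522.U Pool.Agent.K1H13.N Pool.Agent.W516.FT Pool.Agent.W516.DR
  Pool.Agent.K1H15.MT

noncomputable section

variable {k : Type} [Field k] [CharZero k] {V : Type} [AddCommGroup V] [Module k V]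
  {Γ : Type} [Group Γ] {ρ : Representation k Γ V} {χ : Γ →* k} {n j : ℕ}

theorem single_rho' (i : Fin n) (X : Module.End k V) (x : V) (a : Fin n) :
    X ((Pi.single i x : Fin n → V) a) = (Pi.single i (X x) : Fin n → V) a := by
  by_cases hi : a = i
  · subst hi
    rw [Pi.single_eq_same, Pi.single_eq_same]
  · rw [Pi.single_eq_of_ne hi, Pi.single_eq_of_ne hi, map_zero]

theorem tate_rsI' (I : Fin j × Fin 2 → Fin n) {f : (Fin n → V) [⋀^Fin j × Fin 2]→ₗ[k] k}
    (h : IsTateClass ρ χ j f) : IsTate ρ χ j (rsI I f.toMultilinearMap) := by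
  obtain ⟨Δ, hΔ, h1⟩ := h
  refine ⟨Δ, hΔ, fun s hs v => ?_⟩
  have h2 := h1 s hs (fun l => Pi.single (I l) (v l))
  have h3 : (fun (l : Fin j × Fin 2) (i : Fin n) => ρ s ((Pi.single (I l) (v l) : Fin n → V) i)) =
      fun l => (Pi.single (I l) (ρ s (v l)) : Fin n → V) := by
    funext l i
    exact single_rho' _ _ _ _
  rw [h3] at h2
  exact h2

theorem tate_aI' (I : Fin j × Fin 2 → Fin n) {φ : MultilinearMap k (fun _ : Fin j × Fin 2 => V) k}
    (h : IsTate ρ χ j φ) : IsTateClass ρ χ j (aI I φ) := by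
  obtain ⟨Δ, hΔ, h1⟩ := h
  refine ⟨Δ, hΔ, fun s hs v => ?_⟩
  rw [aI_apply, aI_apply, Finset.mul_sum]
  refine Finset.sum_congr rfl fun σ _ => ?_
  rw [h1 s hs fun l => v (σ l) (I l)]
  ring

theorem class_sum {ι : Type} (s : Finset ι) (F : ι → (Fin n → V) [⋀^Fin j × Fin 2]→ₗ[k] k)
    (h : ∀ i ∈ s, IsTateClass ρ χ j (F i)) : IsTateClass ρ χ j (∑ i ∈ s, F i) := by
  classical
  induction s using Finset.induction_on with
  | empty =>
    rw [Finset.sum_empty]
    refine ⟨⊤, inferInstance, fun s _ v => ?_⟩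
    rw [AlternatingMap.zero_apply, AlternatingMap.zero_apply, mul_zero]
  | insert a s ha ih =>
    rw [Finset.sum_insert ha]
    obtain ⟨Δ, hΔ, hf⟩ := h a (Finset.mem_insert_self _ _)
    obtain ⟨Δ', hΔ', hg⟩ := ih fun i hi => h i (Finset.mem_insert_of_mem hi)
    refine ⟨Δ ⊓ Δ', inferInstance, fun s hs v => ?_⟩
    rw [AlternatingMap.add_apply, AlternatingMap.add_apply, hf s hs.1, hg s hs.2, mul_add]

theorem alt_sum {ι : Type} (s : Finset ι) (F : ι → (Fin n → V) [⋀^Fin j × Fin 2]→ₗ[k] k)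
    (w : Fin j × Fin 2 → Fin n → V) : (∑ i ∈ s, F i) w = ∑ i ∈ s, F i w := by
  classical
  induction s using Finset.induction_on with
  | empty => rw [Finset.sum_empty, Finset.sum_empty, AlternatingMap.zero_apply]
  | insert a s ha ih => rw [Finset.sum_insert ha, Finset.sum_insert ha, AlternatingMap.add_apply, ih]

theorem class_smul (c : k) {f : (Fin n → V) [⋀^Fin j × Fin 2]→ₗ[k] k}
    (hf : IsTateClass ρ χ j f) : IsTateClass ρ χ j (c • f) := by
  obtain ⟨Δ, hΔ, hf⟩ := hf
  refine ⟨Δ, hΔ, fun s hs v => ?_⟩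
  rw [AlternatingMap.smul_apply, AlternatingMap.smul_apply, hf s hs, smul_eq_mul, smul_eq_mul]
  ring

theorem fact_ne (j : ℕ) : (Nat.factorial (Fintype.card (Fin j × Fin 2)) : k) ≠ 0 :=
  Nat.cast_ne_zero.2 (Nat.factorial_ne_zero _)

theorem class_of_rsI {f : (Fin n → V) [⋀^Fin j × Fin 2]→ₗ[k] k}
    (h : ∀ I, IsTate ρ χ j (rsI I f.toMultilinearMap)) : IsTateClass ρ χ j f := by
  have h3 : IsTateClass ρ χ j ((Nat.factorial (Fintype.card (Fin j × Fin 2)) : k) • f) := by
    rw [alt_decomp f]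
    exact class_sum _ _ fun I _ => tate_aI' I (h I)
  have h4 := class_smul (Nat.factorial (Fintype.card (Fin j × Fin 2)) : k)⁻¹ h3
  rwa [smul_smul, inv_mul_cancel₀ (fact_ne j), one_smul] at h4

theorem class_iff {f : (Fin n → V) [⋀^Fin j × Fin 2]→ₗ[k] k} :
    IsTateClass ρ χ j f ↔ ∀ I, IsTate ρ χ j (rsI I f.toMultilinearMap) :=
  ⟨fun h I => tate_rsI' I h, class_of_rsI⟩

/-- The restriction of the alternating form attached to a multilinear form. -/
theorem rs_aI' {I : Fin j × Fin 2 → Fin n} (hI : Function.Injective I)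
    (φ : MultilinearMap k (fun _ : Fin j × Fin 2 => V) k) :
    rsI I (aI I φ).toMultilinearMap = φ := by
  refine MultilinearMap.ext fun v => ?_
  rw [rsI_apply]
  change aI I φ _ = _
  rw [aI_apply, Finset.sum_eq_single (1 : Equiv.Perm (Fin j × Fin 2))]
  · rw [Equiv.Perm.sign_one, Units.val_one, Int.cast_one, one_mul]
    congr 1
    funext l
    rw [Equiv.Perm.one_apply, Pi.single_eq_same]
  · intro σ _ hσ
    obtain ⟨l, hl⟩ : ∃ l, σ l ≠ l := by
      by_contra hcon
      push Not at hcon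
      exact hσ (Equiv.ext hcon)
    have h1 : φ (fun l => (Pi.single (I (σ l)) (v (σ l)) : Fin n → V) (I l)) = 0 := by
      refine φ.map_coord_zero l ?_
      exact Pi.single_eq_of_ne (fun h => hl (hI h).symm) _
    rw [h1, mul_zero]
  · intro h
    exact absurd (Finset.mem_univ _) h

theorem isTate_iff_class {I : Fin j × Fin 2 → Fin n} (hI : Function.Injective I)
    {φ : MultilinearMap k (fun _ : Fin j × Fin 2 => V) k} :
    IsTate ρ χ j φ ↔ IsTateClass ρ χ j (aI I φ) := by
  refine ⟨fun h => tate_aI' I h, fun h => ?_⟩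
  have h1 := tate_rsI' I h
  rwa [rs_aI' hI] at h1

/-- A numbering of the variables. -/
def num (j : ℕ) : Fin j × Fin 2 → Fin (j * 2) := finProdFinEquiv

theorem num_inj (j : ℕ) : Function.Injective (num j) := finProdFinEquiv.injective

theorem kills_rsI {X : Module.End k V} (I : Fin j × Fin 2 → Fin n)
    {f : (Fin n → V) [⋀^Fin j × Fin 2]→ₗ[k] k}
    (h : ∀ v, ∑ l, f (Function.update v l fun i => X (v l i)) = 0) :
    Kills X (rsI I f.toMultilinearMap) := by
  intro v
  rw [← h fun l => Pi.single (I l) (v l)]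
  refine Finset.sum_congr rfl fun l _ => ?_
  rw [rsI_apply]
  change f _ = f _
  congr 1
  funext a
  by_cases ha : a = l
  · subst ha
    rw [update_self, update_self]
    funext i
    exact (single_rho' _ _ _ _).symm
  · rw [update_of_ne ha, update_of_ne ha]

theorem kills_aI {X : Module.End k V} (I : Fin j × Fin 2 → Fin n)
    {φ : MultilinearMap k (fun _ : Fin j × Fin 2 => V) k} (h : Kills X φ)
    (v : Fin j × Fin 2 → Fin n → V) :
    ∑ l, aI I φ (Function.update v l fun i => X (v l i)) = 0 := by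
  simp only [aI_apply]
  rw [Finset.sum_comm]
  refine Finset.sum_eq_zero fun σ _ => ?_
  rw [← Finset.mul_sum]
  have h1 := h fun l => v (σ l) (I l)
  have h2 : ∑ l, φ (fun a => Function.update v l (fun i => X (v l i)) (σ a) (I a)) =
      ∑ l, φ (Function.update (fun l => v (σ l) (I l)) l (X (v (σ l) (I l)))) := by
    rw [← Equiv.sum_comp σ]
    refine Finset.sum_congr rfl fun l _ => ?_
    congr 1
    funext a
    by_cases ha : a = l
    · subst ha
      rw [update_self, update_self]
    · rw [update_of_ne ha, update_of_ne fun h => ha (σ.injective h)]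
  rw [h2, h1, mul_zero]

/-- The two descriptions of the Lie algebra of the Tate classes. -/
theorem inLie_iff {X : Module.End k V} : InLie ρ χ X ↔ X ∈ lieT ρ χ := by
  constructor
  · intro h m φ hφ
    have h1 := kills_rsI (num m) (h _ m _ ((isTate_iff_class (num_inj m)).1 hφ))
    rwa [rs_aI' (num_inj m)] at h1
  · intro h n j f hf v
    have h1 : ∀ w, f w = (Nat.factorial (Fintype.card (Fin j × Fin 2)) : k)⁻¹ *
        ∑ I : Fin j × Fin 2 → Fin n, aI I (rsI I f.toMultilinearMap) w := by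
      intro w
      have h2 := congrArg (fun F : (Fin n → V) [⋀^Fin j × Fin 2]→ₗ[k] k => F w) (alt_decomp f)
      simp only [AlternatingMap.smul_apply, smul_eq_mul, alt_sum] at h2
      rw [← h2, inv_mul_cancel_left₀ (fact_ne j)]
    rw [Finset.sum_congr rfl fun l _ => h1 _, ← Finset.mul_sum, Finset.sum_comm,
      Finset.sum_eq_zero fun I _ => kills_aI I (h j _ (tate_rsI' I hf)) v, mul_zero]

end

end Pool.Agent.K1H13.X
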