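import Mathlib
import Pool.Agent.K1H13.X.Alt

/-!
# The class in codimension two which detects the group
-/

set_option linter.unusedSectionVars false

namespace Pool.Agent.K1H13.X

open Module Finset Function TensorProduct Pool.Agent.H204R3.SP Pool.Agent.H204R3.GP
  Pool.Agent.W522.U Pool.Agent.K1H13.N Pool.Agent.W516.FT Pool.Agent.W516.DR
  Pool.Agent.K1H15.MT Pool.Agent.W516.KC

noncomputable section

section general

variable {k : Type} [Field k] [CharZero k] {V : Type} [AddCommGroup V] [Module k V]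
  {Γ G : Type} [Group Γ] [Group G] {ρ : Representation k Γ V} {χ : Γ →* k}
  {ω : V →ₗ[k] V →ₗ[k] k} {ρ' : Representation k G V} {χ' : G →* k}

theorem isEndo_iff {P : Module.End k V} : IsEndo ρ P ↔ AlmostEquivariant ρ P := Iff.rfl

/-- The subgroup of the elements of the Galois group of the point which come from a subgroup of the
group of the subvariety. -/
theorem exists_sub (hc : ∃ Δ : Subgroup Γ, Δ.FiniteIndex ∧ ∀ s ∈ Δ, ∃ t : G, ρ' t = ρ s ∧ χ' t = χ s)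
    {Δ' : Subgroup G} (hΔ' : Δ'.FiniteIndex) : ∃ H : Subgroup Γ, H.FiniteIndex ∧
      ∀ s ∈ H, ∃ t ∈ Δ', ρ' t = ρ s ∧ χ' t = χ s := by
  obtain ⟨Δ, hΔ, hc⟩ := hc
  have hinv : ∀ (s : Γ) (t : G), ρ' t = ρ s → χ' t = χ s → ρ' t⁻¹ = ρ s⁻¹ ∧ χ' t⁻¹ = χ s⁻¹ := by
    intro s t h1 h2
    constructor
    · refine left_inv_eq_right_inv (a := ρ' t) ?_ ?_
      · rw [← map_mul, inv_mul_cancel, map_one]
      · rw [h1, ← map_mul, mul_inv_cancel, map_one]
    · refine left_inv_eq_right_inv (a := χ' t) ?_ ?_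
      · rw [← map_mul, inv_mul_cancel, map_one]
      · rw [h2, ← map_mul, mul_inv_cancel, map_one]
  let H : Subgroup Γ :=
    { carrier := {s | s ∈ Δ ∧ ∃ t ∈ Δ', ρ' t = ρ s ∧ χ' t = χ s}
      one_mem' := ⟨Δ.one_mem, 1, Δ'.one_mem, by rw [map_one, map_one], by rw [map_one, map_one]⟩
      mul_mem' := by
        rintro a b ⟨ha, t, ht, h1, h2⟩ ⟨hb, t', ht', h1', h2'⟩
        exact ⟨Δ.mul_mem ha hb, t * t', Δ'.mul_mem ht ht', by rw [map_mul, map_mul, h1, h1'],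
          by rw [map_mul, map_mul, h2, h2']⟩
      inv_mem' := by
        rintro a ⟨ha, t, ht, h1, h2⟩
        exact ⟨Δ.inv_mem ha, t⁻¹, Δ'.inv_mem ht, hinv a t h1 h2⟩ }
  choose! τ hτ using hc
  have hfin : Finite (G ⧸ Δ') := inferInstance
  have hfi : (H.subgroupOf Δ).FiniteIndex := by
    refine Pool.Agent.TH118.CR.fi_of_map (H.subgroupOf Δ) (T := G ⧸ Δ')
      (fun s => QuotientGroup.mk (τ s.1)) ?_
    rintro ⟨s, hs⟩ ⟨s', hs'⟩ hss
    rw [Subgroup.mem_subgroupOf]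
    have h1 : (τ s)⁻¹ * τ s' ∈ Δ' := QuotientGroup.eq.1 hss
    have h2 := hinv s (τ s) (hτ s hs).1 (hτ s hs).2
    refine ⟨Δ.mul_mem (Δ.inv_mem hs) hs', _, h1, ?_, ?_⟩
    · change ρ' ((τ s)⁻¹ * τ s') = ρ (s⁻¹ * s')
      rw [map_mul, map_mul, h2.1, (hτ s' hs').1]
    · change χ' ((τ s)⁻¹ * τ s') = χ (s⁻¹ * s')
      rw [map_mul, map_mul, h2.2, (hτ s' hs').2]
  refine ⟨H, ?_, fun s hs => hs.2⟩
  have h1 : H ≤ Δ := fun g hg => hg.1
  constructor
  rw [← Subgroup.relIndex_mul_index h1]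
  exact mul_ne_zero hfi.index_ne_zero hΔ.index_ne_zero

/-- The Tate forms of the subvariety are Tate forms of the point. -/
theorem tate_down (hY : PassesThrough ρ χ ω ρ' χ') {m : ℕ}
    {φ : MultilinearMap k (fun _ : Fin m × Fin 2 => V) k} (h : IsTate ρ' χ' m φ) :
    IsTate ρ χ m φ := by
  obtain ⟨Δ', hΔ', h⟩ := h
  obtain ⟨H, hH, h1⟩ := exists_sub hY.contains hΔ'
  refine ⟨H, hH, fun s hs v => ?_⟩
  obtain ⟨t, ht, h2, h3⟩ := h1 s hs
  rw [← h2, ← h3]
  exact h t ht v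

theorem lie_mono (hY : PassesThrough ρ χ ω ρ' χ') : lieT ρ χ ≤ lieT ρ' χ' :=
  fun _ hX m φ hφ => hX m φ (tate_down hY hφ)

theorem same_lie (h : SameGroup ρ χ ρ' χ') : lieT ρ χ = lieT ρ' χ' := by
  have key : ∀ (m : ℕ) (φ : MultilinearMap k (fun _ : Fin m × Fin 2 => V) k),
      IsTate ρ χ m φ ↔ IsTate ρ' χ' m φ := by
    intro m φ
    rw [isTate_iff_class (num_inj m), isTate_iff_class (num_inj m)]
    exact (h _ m _).symm
  ext X
  exact ⟨fun hX m φ hφ => hX m φ ((key m φ).2 hφ), fun hX m φ hφ => hX m φ ((key m φ).1 hφ)⟩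

theorem same_tate (h : SameGroup ρ χ ρ' χ') (m : ℕ)
    (φ : MultilinearMap k (fun _ : Fin m × Fin 2 => V) k) :
    IsTate ρ χ m φ ↔ IsTate ρ' χ' m φ := by
  rw [isTate_iff_class (num_inj m), isTate_iff_class (num_inj m)]
  exact (h _ m _).symm

/-- The form attached to an operator. -/
theorem endo_of_form (hnd : ∀ u, (∀ v, ω u v = 0) → u = 0)
    (hω : ∀ s u v, ω (ρ s u) (ρ s v) = χ s * ω u v) {P : Module.End k V}
    (h : ∃ Δ : Subgroup Γ, Δ.FiniteIndex ∧ ∀ s ∈ Δ, ∀ u v,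
      ω (P (ρ s u)) (ρ s v) = χ s * ω (P u) v) : IsEndo ρ P := by
  obtain ⟨Δ, hΔ, h⟩ := h
  refine ⟨Δ, hΔ, fun s hs u => ?_⟩
  rw [← sub_eq_zero]
  refine hnd _ fun v => ?_
  have h1 := h s hs u (ρ s⁻¹ v)
  rw [rho_inv', ← hω, rho_inv'] at h1
  rw [map_sub, LinearMap.sub_apply, h1, sub_self]

theorem form_of_endo (hω : ∀ s u v, ω (ρ s u) (ρ s v) = χ s * ω u v) {P : Module.End k V}
    (h : IsEndo ρ P) : ∃ Δ : Subgroup Γ, Δ.FiniteIndex ∧ ∀ s ∈ Δ, ∀ u v,
      ω (P (ρ s u)) (ρ s v) = χ s * ω (P u) v := by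
  obtain ⟨Δ, hΔ, h⟩ := h
  exact ⟨Δ, hΔ, fun s hs u v => by rw [h s hs, hω]⟩

theorem same_endo (hnd : ∀ u, (∀ v, ω u v = 0) → u = 0)
    (hω : ∀ s u v, ω (ρ s u) (ρ s v) = χ s * ω u v)
    (hω' : ∀ s u v, ω (ρ' s u) (ρ' s v) = χ' s * ω u v) (h : SameGroup ρ χ ρ' χ') :
    SameEndo ρ ρ' := by
  intro P hP
  let φ : MultilinearMap k (fun _ : Fin 1 × Fin 2 => V) k :=
    Pool.Agent.H204R3.CM.prodMap (fun _ : Fin 1 => bil2 (ω.comp P))
  have hφ : ∀ v, φ v = ω (P (v (0, 0))) (v (0, 1)) := by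
    intro v
    rw [Pool.Agent.H204R3.CM.prodMap_apply, Fin.prod_univ_one, bil2_apply]
    rfl
  have h1 : IsTate ρ χ 1 φ := by
    obtain ⟨Δ, hΔ, h1⟩ := form_of_endo hω hP
    refine ⟨Δ, hΔ, fun s hs v => ?_⟩
    rw [hφ, hφ, h1 s hs, pow_one]
  obtain ⟨Δ, hΔ, h2⟩ := (same_tate h 1 φ).1 h1
  refine endo_of_form hnd hω' ⟨Δ, hΔ, fun s hs u v => ?_⟩
  have h3 := h2 s hs (fun l => if l.2 = 0 then u else v)
  rw [hφ, hφ, pow_one] at h3
  simpa using h3

theorem inLie_mono (hY : PassesThrough ρ χ ω ρ' χ') {X : Module.End k V} (h : InLie ρ χ X) :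
    InLie ρ' χ' X := inLie_iff.2 (lie_mono hY (inLie_iff.1 h))

/-- No Weil type: the centre consists of self-adjoint operators. -/
theorem same_centre_of_selfadj (hnd : ∀ u, (∀ v, ω u v = 0) → u = 0)
    (hω' : ∀ s u v, ω (ρ' s u) (ρ' s v) = χ' s * ω u v)
    (hsa : ∀ P, IsCentral ρ P → ∀ u v, ω (P u) v = ω u (P v)) : SameCentre ρ χ ρ' χ' := by
  intro X hX hXL
  have h1 : X = 0 := by
    refine LinearMap.ext fun u => hnd _ fun v => ?_
    have h2 := lieT_sp ρ' χ' ω hω' (inLie_iff.1 hXL) u v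
    have h3 := hsa X hX u v
    have h4 : (2 : k) * ω (X u) v = 0 := by linear_combination h2 + h3
    exact (mul_eq_zero.1 h4).resolve_left two_ne_zero
  rw [h1]
  exact inLie_iff.2 (Submodule.zero_mem _)

variable [FiniteDimensional k V]

theorem exists_oper (hnd : ∀ u, (∀ v, ω u v = 0) → u = 0) (B : V →ₗ[k] V →ₗ[k] k) :
    ∃ P : Module.End k V, ∀ u v, B u v = ω (P u) v := by
  have hinj : Function.Injective ω := by
    rw [injective_iff_map_eq_zero]
    intro u hu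
    exact hnd u fun v => by rw [hu, LinearMap.zero_apply]
  have hsurj : Function.Surjective ω :=
    (LinearMap.injective_iff_surjective_of_finrank_eq_finrank
      (Subspace.dual_finrank_eq (K := k) (V := V)).symm).1 hinj
  let e : V ≃ₗ[k] (V →ₗ[k] k) := LinearEquiv.ofBijective ω ⟨hinj, hsurj⟩
  refine ⟨e.symm.toLinearMap ∘ₗ B, fun u v => ?_⟩
  have h1 : e (e.symm (B u)) = B u := e.apply_symm_apply _
  exact (congrArg (fun f : V →ₗ[k] k => f v) h1).symm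

/-- Classes of degree two extend with the endomorphisms. -/
theorem two_up (hnd : ∀ u, (∀ v, ω u v = 0) → u = 0)
    (hω : ∀ s u v, ω (ρ s u) (ρ s v) = χ s * ω u v)
    (hω' : ∀ s u v, ω (ρ' s u) (ρ' s v) = χ' s * ω u v) (hE : SameEndo ρ ρ') {n : ℕ}
    {B : (Fin n → V) [⋀^Fin 2]→ₗ[k] k} (hB : IsTateClass ρ χ 1 B) : IsTateClass ρ' χ' 1 B := by
  let C : Fin n → Fin n → (V →ₗ[k] V →ₗ[k] k) := fun a b =>
    LinearMap.mk₂ k (fun x y => B ![Pi.single a x, Pi.single b y])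
      (fun x x' y => by
        rw [Pi.single_add]
        have := B.map_update_add ![Pi.single a x, Pi.single b y] 0 (Pi.single a x)
          (Pi.single a x')
        rwa [up0, up0, up0] at this)
      (fun c x y => by
        rw [Pi.single_smul]
        have := B.map_update_smul ![Pi.single a x, Pi.single b y] 0 c (Pi.single a x)
        rwa [up0, up0] at this)
      (fun x y y' => by
        rw [Pi.single_add]
        have := B.map_update_add ![Pi.single a x, Pi.single b y] 1 (Pi.single b y)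
          (Pi.single b y')
        rwa [up1, up1, up1] at this)
      (fun c x y => by
        rw [Pi.single_smul]
        have := B.map_update_smul ![Pi.single a x, Pi.single b y] 1 c (Pi.single b y)
        rwa [up1, up1] at this)
  have hC : ∀ a b x y, C a b x y = B ![Pi.single a x, Pi.single b y] := fun _ _ _ _ => rfl
  have hsum : ∀ v : Fin 2 → Fin n → V, B v = ∑ a, ∑ b, C a b (v 0 a) (v 1 b) := by
    intro v
    have h1 := congrArg (fun f : MultilinearMap k (fun _ : Fin 2 => Fin n → V) k => f v)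
      (decomp B.toMultilinearMap)
    simp only [_root_.sum_apply] at h1
    have h2 : B v = ∑ I : Fin 2 → Fin n, C (I 0) (I 1) (v 0 (I 0)) (v 1 (I 1)) := by
      rw [show B v = B.toMultilinearMap v from rfl, h1]
      refine Finset.sum_congr rfl fun I _ => ?_
      rw [prI_apply, rsI_apply, hC]
      change B _ = B _
      congr 1
      funext l
      fin_cases l <;> rfl
    rw [h2, ← Finset.sum_product']
    exact Fintype.sum_equiv (finTwoArrowEquiv (Fin n)) _ _ fun I => rfl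
  have hCT : ∀ a b, ∃ Δ : Subgroup G, Δ.FiniteIndex ∧ ∀ s ∈ Δ, ∀ u v,
      C a b (ρ' s u) (ρ' s v) = χ' s * C a b u v := by
    intro a b
    obtain ⟨P, hP⟩ := exists_oper hnd (C a b)
    have h1 : IsEndo ρ P := by
      refine endo_of_form hnd hω ?_
      obtain ⟨Δ, hΔ, h1⟩ := hB
      refine ⟨Δ, hΔ, fun s hs u v => ?_⟩
      rw [← hP, ← hP, hC, hC]
      have h2 := h1 s hs ![Pi.single a u, Pi.single b v]
      rw [pow_one] at h2
      rw [← h2]
      congr 1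
      funext l
      fin_cases l
      · funext i
        exact (single_rho' _ _ _ _).symm
      · funext i
        exact (single_rho' _ _ _ _).symm
    obtain ⟨Δ, hΔ, h2⟩ := form_of_endo hω' (hE P h1)
    exact ⟨Δ, hΔ, fun s hs u v => by rw [hP, hP, h2 s hs]⟩
  choose Δ hΔ hCT using hCT
  refine ⟨⨅ a, ⨅ b, Δ a b, Subgroup.finiteIndex_iInf fun a => Subgroup.finiteIndex_iInf (hΔ a),
    fun s hs v => ?_⟩
  rw [hsum, hsum, pow_one, Finset.mul_sum]
  refine Finset.sum_congr rfl fun a _ => ?_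
  rw [Finset.mul_sum]
  refine Finset.sum_congr rfl fun b _ => ?_
  exact hCT a b s (Subgroup.mem_iInf.1 (Subgroup.mem_iInf.1 hs a) b) _ _

/-- Decomposable classes extend with the endomorphisms. -/
theorem decomp_up (hnd : ∀ u, (∀ v, ω u v = 0) → u = 0)
    (hω : ∀ s u v, ω (ρ s u) (ρ s v) = χ s * ω u v)
    (hω' : ∀ s u v, ω (ρ' s u) (ρ' s v) = χ' s * ω u v) (hE : SameEndo ρ ρ') {n : ℕ}
    {f : (Fin n → V) [⋀^Fin 2 × Fin 2]→ₗ[k] k} (hf : Decomposable ρ χ f) :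
    IsTateClass ρ' χ' 2 f := by
  unfold Decomposable at hf
  induction hf using Submodule.span_induction with
  | mem f h =>
    obtain ⟨B, hB, h1⟩ := h
    have h2 := fun l => two_up hnd hω hω' hE (hB l)
    choose Δ hΔ h3 using h2
    refine ⟨⨅ l, Δ l, Subgroup.finiteIndex_iInf hΔ, fun s hs v => ?_⟩
    rw [h1, h1, Finset.mul_sum]
    refine Finset.sum_congr rfl fun σ _ => ?_
    have h4 : ∀ l, B l ![fun i => ρ' s (v (σ (l, 0)) i), fun i => ρ' s (v (σ (l, 1)) i)] =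
        χ' s * B l ![v (σ (l, 0)), v (σ (l, 1))] := by
      intro l
      have h5 := h3 l s (Subgroup.mem_iInf.1 hs l) ![v (σ (l, 0)), v (σ (l, 1))]
      rw [pow_one] at h5
      rw [← h5]
      congr 1
      funext a
      fin_cases a <;> rfl
    rw [Finset.prod_congr rfl fun l _ => h4 l, Finset.prod_mul_distrib, Finset.prod_const,
      Finset.card_univ, Fintype.card_fin]
    ring
  | zero =>
    refine ⟨⊤, inferInstance, fun s _ v => ?_⟩
    rw [AlternatingMap.zero_apply, AlternatingMap.zero_apply, mul_zero]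
  | add f g _ _ hf hg =>
    obtain ⟨Δ, hΔ, hf⟩ := hf
    obtain ⟨Δ', hΔ', hg⟩ := hg
    refine ⟨Δ ⊓ Δ', inferInstance, fun s hs v => ?_⟩
    rw [AlternatingMap.add_apply, AlternatingMap.add_apply, hf s hs.1, hg s hs.2, mul_add]
  | smul c f _ hf => exact class_smul c hf

end general

section main

variable {ℓ : ℕ} [Fact ℓ.Prime] {V : Type} [AddCommGroup V] [Module ℚ_[ℓ] V]
  [FiniteDimensional ℚ_[ℓ] V] {Γ G : Type} [Group Γ] [Group G] {ρ : Representation ℚ_[ℓ] Γ V}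
  {χ : Γ →* ℚ_[ℓ]} {ω : V →ₗ[ℚ_[ℓ]] V →ₗ[ℚ_[ℓ]] ℚ_[ℓ]} {ρ' : Representation ℚ_[ℓ] G V}
  {χ' : G →* ℚ_[ℓ]}

theorem isTate_iff_kills {m : ℕ} {φ : Fm ℚ_[ℓ] V m} :
    IsTate ρ χ m φ ↔ ∀ Y ∈ lieT ρ χ, Kills Y φ :=
  ⟨fun h _ hY => hY m φ h, fun h => tate_of_kills_padic h⟩

theorem same_of_lie (h : lieT ρ χ = lieT ρ' χ') : SameGroup ρ χ ρ' χ' := by
  intro n j f
  rw [class_iff, class_iff]
  refine forall_congr' fun I => ?_
  rw [isTate_iff_kills, isTate_iff_kills, h]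

/-- The detecting form in four variables. -/
def theta (hx : IsPoint ρ χ ω) : MultilinearMap ℚ_[ℓ] (fun _ : Fin 2 × Fin 2 => V) ℚ_[ℓ] :=
  Pool.Agent.W516.KC2.casimir (lieT ρ χ) (traceNondeg hx.nondeg hx.pairing hx.semisimple) ω

/-- The detecting class. -/
def Theta (hx : IsPoint ρ χ ω) : (Fin 4 → V) [⋀^Fin 2 × Fin 2]→ₗ[ℚ_[ℓ]] ℚ_[ℓ] :=
  aI (⇑cc) (theta hx)

theorem theta_inv (hx : IsPoint ρ χ ω) (s : Γ) (v : Fin 2 × Fin 2 → V) :
    theta hx (fun l => ρ s (v l)) = χ s ^ 2 * theta hx v := by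
  refine Pool.Agent.W516.KC2.casimir_inv (lieT ρ χ) _ ω (g := ρ s) (g' := ρ s⁻¹) ?_ ?_
    (hx.pairing s) ?_ ?_ v
  · rw [← map_mul, inv_mul_cancel, map_one]
  · rw [← map_mul, mul_inv_cancel, map_one]
  · intro X hX
    exact lieT_conj ρ χ s hX
  · intro X hX
    have h1 := lieT_conj ρ χ s⁻¹ hX
    rwa [inv_inv] at h1

theorem Theta_inv (hx : IsPoint ρ χ ω) (s : Γ) (v : Fin 2 × Fin 2 → Fin 4 → V) :
    Theta hx (fun l i => ρ s (v l i)) = χ s ^ 2 * Theta hx v := by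
  unfold Theta
  rw [aI_apply, aI_apply, Finset.mul_sum]
  refine Finset.sum_congr rfl fun σ _ => ?_
  rw [theta_inv hx s fun l => v (σ l) (cc l)]
  ring

theorem Theta_tate (hx : IsPoint ρ χ ω) {G : Type} [Group G] {ρ' : Representation ℚ_[ℓ] G V}
    {χ' : G →* ℚ_[ℓ]} : IsTateClass ρ' χ' 2 (Theta hx) ↔ IsTate ρ' χ' 2 (theta hx) :=
  (isTate_iff_class cc.injective).symm

/-- The Lie algebras agree as soon as the class extends. -/
theorem lie_eq (hx : IsPoint ρ χ ω) (hY : PassesThrough ρ χ ω ρ' χ') (hE : SameEndo ρ ρ')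
    (hC : SameCentre ρ χ ρ' χ') (hΘ : IsTate ρ' χ' 2 (theta hx)) : lieT ρ χ = lieT ρ' χ' := by
  refine le_antisymm (lie_mono hY) fun X hX => ?_
  have hsk : IsSkew ω X := lieT_sp ρ' χ' ω hY.pairing hX
  obtain ⟨Y, hYm, hYc⟩ := Pool.Agent.W516.KC2.mem_of_kills_casimir (lieT ρ χ)
    (traceNondeg hx.nondeg hx.pairing hx.semisimple) ω
    (fun X hX Y hY => lieT_bracket ρ χ hX hY) hx.nondeg hsk (hX 2 _ hΘ)
  have h1 : AlmostEquivariant ρ (X - Y) := almost_of_commute hx.semisimple (bdd_bcr ρ) hYc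
  have h2 : X - Y ∈ lieT ρ' χ' := Submodule.sub_mem _ hX (lie_mono hY hYm)
  have h3 : X - Y ∈ lieT ρ χ := by
    refine inLie_iff.1 (hC _ ⟨h1, fun Q hQ => ?_⟩ (inLie_iff.2 h2))
    exact LinearMap.ext fun v => (lie_comm hx.nondeg hY.pairing (hE Q hQ) h2 v).symm
  have h4 := Submodule.add_mem _ h3 hYm
  rwa [sub_add_cancel] at h4

/-- The class extends if the Lie algebra of the point is an ideal. -/
theorem normal_of_tate (hx : IsPoint ρ χ ω) (hY : PassesThrough ρ χ ω ρ' χ')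
    (hΘ : IsTate ρ' χ' 2 (theta hx)) : IsAlmostProduct ρ χ ρ' χ' := by
  intro X hX
  rw [inLie_iff] at hX
  have hsk : IsSkew ω X := lieT_sp ρ' χ' ω hY.pairing hX
  obtain ⟨Y, hYm, hYc⟩ := Pool.Agent.W516.KC2.mem_of_kills_casimir (lieT ρ χ)
    (traceNondeg hx.nondeg hx.pairing hx.semisimple) ω
    (fun X hX Y hY => lieT_bracket ρ χ hX hY) hx.nondeg hsk (hX 2 _ hΘ)
  exact ⟨Y, inLie_iff.2 hYm, almost_of_commute hx.semisimple (bdd_bcr ρ) hYc⟩

theorem normal_of_product (hx : IsPoint ρ χ ω) (h : IsAlmostProduct ρ χ ρ' χ') :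
    IsNormalIn ρ χ ρ' χ' := by
  intro X Z hX hZ
  obtain ⟨Y, hY, hC⟩ := h X hX
  rw [inLie_iff] at hY hZ ⊢
  have h1 := lieT_bracket ρ χ hY hZ
  have h2 : Z * (X - Y) = (X - Y) * Z :=
    LinearMap.ext fun v => lie_comm hx.nondeg hx.pairing hC hZ v
  have h3 : X * Z - Z * X = Y * Z - Z * Y := by
    rw [mul_sub, sub_mul] at h2
    rw [← sub_eq_zero]
    have h4 := congrArg (fun W => X * Z - Y * Z - W) h2
    simp only [sub_self] at h4
    rw [← h4]
    abel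
  rw [h3]
  exact h1

theorem tate_of_normal (hx : IsPoint ρ χ ω) (hY : PassesThrough ρ χ ω ρ' χ')
    (h : IsNormalIn ρ χ ρ' χ') : IsTate ρ' χ' 2 (theta hx) := by
  rw [isTate_iff_kills]
  intro X hX
  refine Pool.Agent.W516.KC2.casimir_kills (lieT ρ χ) _ ω (lieT_sp ρ' χ' ω hY.pairing hX)
    fun Z hZ => ?_
  exact inLie_iff.1 (h X Z (inLie_iff.2 hX) (inLie_iff.2 hZ))

theorem normal_iff (hx : IsPoint ρ χ ω) (hY : PassesThrough ρ χ ω ρ' χ') :
    IsTateClass ρ' χ' 2 (Theta hx) ↔ IsNormalIn ρ χ ρ' χ' := by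
  rw [Theta_tate]
  exact ⟨fun h => normal_of_product hx (normal_of_tate hx hY h), tate_of_normal hx hY⟩

theorem product_iff (hx : IsPoint ρ χ ω) (hY : PassesThrough ρ χ ω ρ' χ') :
    IsTateClass ρ' χ' 2 (Theta hx) ↔ IsAlmostProduct ρ χ ρ' χ' := by
  rw [Theta_tate]
  exact ⟨normal_of_tate hx hY, fun h => tate_of_normal hx hY (normal_of_product hx h)⟩

/-- **The criterion.** -/
theorem same_iff (hx : IsPoint ρ χ ω) (hY : PassesThrough ρ χ ω ρ' χ') :
    SameGroup ρ χ ρ' χ' ↔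
      SameEndo ρ ρ' ∧ SameCentre ρ χ ρ' χ' ∧ IsTateClass ρ' χ' 2 (Theta hx) := by
  constructor
  · intro h
    refine ⟨same_endo hx.nondeg hx.pairing hY.pairing h, fun X _ hX => ?_, ?_⟩
    · rw [inLie_iff] at hX ⊢
      rwa [same_lie h]
    · rw [h 4 2]
      exact ⟨⊤, inferInstance, fun s _ v => Theta_inv hx s v⟩
  · rintro ⟨hE, hC, hΘ⟩
    exact same_of_lie (lie_eq hx hY hE hC ((Theta_tate hx).1 hΘ))

/-- **The criterion when the Lie algebra is simple.** -/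
theorem simple_iff (hx : IsPoint ρ χ ω) (hY : PassesThrough ρ χ ω ρ' χ')
    (hs : HasNoIdeals ρ' χ') (h0 : ∃ Z, InLie ρ χ Z ∧ Z ≠ 0) :
    SameGroup ρ χ ρ' χ' ↔ IsTateClass ρ' χ' 2 (Theta hx) := by
  refine ⟨fun h => ((same_iff hx hY).1 h).2.2, fun h => ?_⟩
  have h1 := (normal_iff hx hY).1 h
  obtain ⟨Z, hZ, hZ0⟩ := h0
  rcases hs (lieT ρ χ) (fun Z hZ => inLie_mono hY (inLie_iff.2 hZ))
    (fun X hX Z hZ => inLie_iff.1 (h1 X Z hX (inLie_iff.2 hZ))) with h2 | h2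
  · exfalso
    rw [inLie_iff, h2, Submodule.mem_bot] at hZ
    exact hZ0 hZ
  · exact same_of_lie (le_antisymm (lie_mono hY) fun X hX => h2 X (inLie_iff.2 hX))

end main

end

end Pool.Agent.K1H13.X
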